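import Pool.Agent.DAD.Fin3
import Pool.Agent.DAD.Fin2b

set_option autoImplicit false

/-!
# MP_dafbe7_nt, Q1 for a function of degree 2 and a product of any number of functions of degree ≤ 3

Let `F` be an arbitrary member of the Selberg class of degree `2` and let `K` be a member whose
coefficients are the Dirichlet convolution of those of arbitrary members `G 0, ..., G (r-1)`, each of
degree at most `3`, of total degree at most `D`, `D ≥ 6` (`L_K = ∏ L_{G i}`). Then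
`∫_1^T E_F E_K dx ≪ T^(max(208/125, 7/4 - 1/D) + ε) + |L_F(0)| T^(2 - 4/D + ε)`.
The trivial exponent is `1 + σ = 7/4 - 1/(2D)`; the bound is better for every `D ≥ 6` if `L_F(0) = 0`
and for `6 ≤ D < 14` for every `F`.
-/

open Complex MeasureTheory

namespace Pool.Agent.Results.MP_dafbe7_nt.DegreeTwoAndProducts

theorem result (F : HYM.Sel) (hF : F.deg = 2) (r : ℕ) (G : ℕ → HYM.Sel)
    (hG : ∀ i < r, (G i).deg ≤ 3) (K : HYM.Sel)
    (hK : ∀ n : ℕ, 1 ≤ n → K.f n = (∏ i ∈ Finset.range r, DAD.af (G i)) n)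
    (D : ℝ) (hD6 : 6 ≤ D) (hD : ∑ i ∈ Finset.range r, (G i).deg ≤ D) (ε : ℝ) (hε : 0 < ε) :
    ∃ C : ℝ, ∀ T : ℝ, 1 ≤ T →
      ‖∫ x in (1 : ℝ)..T, F.E x * K.E x‖ ≤
        C * (T ^ (max (208 / 125) (7 / 4 - 1 / D) + ε) + ‖F.L 0‖ * T ^ (2 - 4 / D + ε)) := by
  obtain ⟨C₁, h₁⟩ := DAD.mainE F hF G r hG K hK hD6 hD hε
  obtain ⟨C₂, h₂⟩ := DAD.KE_int2 G r hG K hK hD6 hD hε
  have hC₁ : 0 ≤ C₁ := by
    have := (norm_nonneg _).trans (h₁ 1 le_rfl)
    simpa using this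
  have hC₂ : 0 ≤ C₂ := by
    have := (norm_nonneg _).trans (h₂ 1 le_rfl)
    simpa using this
  refine ⟨C₁ + ‖F.L 0‖ * C₂ + C₂, fun T hT => ?_⟩
  have hT0 : 0 < T := by linarith
  have i1 := (DAD.iEE F K (F.L 0) (a := 1) (b := T) le_rfl hT).1
  have i2 : IntervalIntegrable (fun x => F.L 0 * K.E x) volume 1 T := by
    refine (((DAD.iEE F K 0 (a := 1) (b := T) le_rfl hT).1).sub i1).congr fun x _ => ?_
    ring
  have e : ∫ x in (1 : ℝ)..T, F.E x * K.E x =
      (∫ x in (1 : ℝ)..T, (F.E x - F.L 0) * K.E x) + F.L 0 * ∫ x in (1 : ℝ)..T, K.E x := by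
    rw [← intervalIntegral.integral_const_mul, ← intervalIntegral.integral_add i1 i2]
    refine intervalIntegral.integral_congr fun x _ => ?_
    show F.E x * K.E x = (F.E x - F.L 0) * K.E x + F.L 0 * K.E x
    ring
  set a : ℝ := T ^ (max (208 / 125) (7 / 4 - 1 / D) + ε) with ha
  set b : ℝ := T ^ (2 - 4 / D + ε) with hb
  have ha0 : 0 ≤ a := by positivity
  have hb0 : 0 ≤ b := by positivity
  have hc : T ^ (max (3 / 2) (2 - 4 / D) + ε) ≤ a + b := by
    rcases le_total (3 / 2 : ℝ) (2 - 4 / D) with h | h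
    · rw [max_eq_right h]
      linarith
    · rw [max_eq_left h]
      have : T ^ (3 / 2 + ε) ≤ a := by
        refine Real.rpow_le_rpow_of_exponent_le hT ?_
        have := le_max_left (208 / 125 : ℝ) (7 / 4 - 1 / D)
        linarith
      linarith
  rw [e]
  have hL : 0 ≤ ‖F.L 0‖ := norm_nonneg _
  calc _ ≤ ‖∫ x in (1 : ℝ)..T, (F.E x - F.L 0) * K.E x‖ +
        ‖F.L 0‖ * ‖∫ x in (1 : ℝ)..T, K.E x‖ := by
        refine (norm_add_le _ _).trans ?_
        rw [norm_mul]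
    _ ≤ C₁ * a + ‖F.L 0‖ * (C₂ * (a + b)) := by
        refine add_le_add (h₁ T hT) (mul_le_mul_of_nonneg_left ?_ hL)
        exact (h₂ T hT).trans (mul_le_mul_of_nonneg_left hc hC₂)
    _ ≤ (C₁ + ‖F.L 0‖ * C₂ + C₂) * (a + ‖F.L 0‖ * b) := by
        have q1 : 0 ≤ C₁ * (‖F.L 0‖ * b) := by positivity
        have q2 : 0 ≤ ‖F.L 0‖ * C₂ * (‖F.L 0‖ * b) := by positivity
        have q3 : 0 ≤ C₂ * a := by positivity
        nlinarith
    _ = _ := by ring

end Pool.Agent.Results.MP_dafbe7_nt.DegreeTwoAndProducts
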