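import Pool.Agent.WYL.MainD
import Pool.Agent.WYL.Fmb
import Pool.Agent.WYL.Wey
import Pool.Agent.HYM.MainB

set_option autoImplicit false

/-!
# MP_dafbe7_nt, Q1 for the degrees 2 and 5

Let `F` be an arbitrary member of the Selberg class of degree at most `2`, and let `K` be a member
whose coefficients are the Dirichlet convolution of those of two arbitrary members `G` and `M` of
degrees at most `2` and at most `3` (so `L_K = L_G L_M`). Then
`∫_1^T E_F E_K dx ≪ T^(23/14 + ε)`, and the exponent improves to `8/5` when `M` in turn is a product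
of a member `Z` of degree at most `1` (coefficients periodic up to a twist `n^(iθ)`, `WYL.Lin`) and
an arbitrary member `H` of degree at most `2`.

For `deg F = 2`, `deg K = 5` the trivial exponent is `1 + σ = 33/20`.
-/

open Complex MeasureTheory

namespace Pool.Agent.Results.MP_dafbe7_nt.DegreesTwoFive

theorem result (F G M K : HYM.Sel) (hF : F.deg ≤ 2) (hG : G.deg ≤ 2) (hM : M.deg ≤ 3)
    (hK : ∀ n : ℕ, 1 ≤ n → K.f n = ∑ p ∈ n.divisorsAntidiagonal, G.f p.1 * M.f p.2) :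
    (∀ ε : ℝ, 0 < ε → ∃ C : ℝ, ∀ T : ℝ, 1 ≤ T →
      ‖∫ x in (1 : ℝ)..T, F.E x * K.E x‖ ≤ C * T ^ (23 / 14 + ε)) ∧
    (∀ Z H : HYM.Sel, Z.deg ≤ 1 → WYL.Lin Z → H.deg ≤ 2 →
      (∀ n : ℕ, 1 ≤ n → M.f n = ∑ p ∈ n.divisorsAntidiagonal, Z.f p.1 * H.f p.2) →
      ∀ ε : ℝ, 0 < ε → ∃ C : ℝ, ∀ T : ℝ, 1 ≤ T →
        ‖∫ x in (1 : ℝ)..T, F.E x * K.E x‖ ≤ C * T ^ (8 / 5 + ε)) := by
  have hne : ∀ t : ℝ, HYM.ln (1 / 2) t ≠ 1 := by
    intro t h
    have := congrArg Complex.re h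
    norm_num [HYM.ln] at this
  refine ⟨fun ε hε => ?_, fun Z H hZ lZ hH hMZ ε hε => ?_⟩
  · have h := WYL.mainD F K hF (a := 1 / 4) (by norm_num) (by norm_num)
      (WYL.fm_two_three G M K hG hM (fun t => HYM.L_mul G M K hK (hne t))) ε hε
    have e : (3 / 2 + 1 / 4 / (3 / 2 + 1 / 4) + ε : ℝ) = 23 / 14 + ε := by norm_num
    rw [e] at h
    exact h
  · have h := WYL.mainD F K hF (a := 1 / 6) (by norm_num) (by norm_num)
      (WYL.fm_zgh Z G H K hG hH (fun t => by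
        rw [HYM.L_mul G M K hK (hne t), HYM.L_mul Z H M hMZ (hne t)]
        ring) (WYL.weyl Z lZ hZ)) ε hε
    have e : (3 / 2 + 1 / 6 / (3 / 2 + 1 / 6) + ε : ℝ) = 8 / 5 + ε := by norm_num
    rw [e] at h
    exact h

end Pool.Agent.Results.MP_dafbe7_nt.DegreesTwoFive
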