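import Pool.Agent.HYM.MainA

set_option autoImplicit false

/-!
# MP_dafbe7_nt, Q1 for two functions of degrees 2 and 3, each error term to the first power

For all members `F`, `G` of the Selberg class of degrees `2` and `3`:
`∫_1^T E_F E_G dx ≪ T^(3/2 + ε)`. The trivial exponent is `1 + σ = 19/12`.
-/

open Complex MeasureTheory

namespace Pool.Agent.Results.MP_dafbe7_nt.DegreesTwoThree

theorem result (F G : HYM.Sel) (hF : F.deg = 2) (hG : G.deg = 3) (ε : ℝ) (hε : 0 < ε) :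
    ∃ C : ℝ, ∀ T : ℝ, 1 ≤ T →
      ‖∫ x in (1 : ℝ)..T, F.E x * G.E x‖ ≤ C * T ^ (3 / 2 + ε) :=
  HYM.mainA F G hF hG ε hε

end Pool.Agent.Results.MP_dafbe7_nt.DegreesTwoThree
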