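import Pool.Agent.HYM.MainB

set_option autoImplicit false

/-!
# MP_dafbe7_nt, Q1 for degree 2 and products of two functions of degree at most 2

Let `F`, `G`, `H` be members of the Selberg class of degree at most `2` and let `K` be a member whose
coefficients are the Dirichlet convolution of those of `G` and `H` (so `L_K = L_G L_H`). Then
`∫_1^T E_F E_K dx ≪ T^(3/2 + ε)`. For `deg F = 2`, `deg K = 4` the trivial exponent is
`1 + σ = 13/8`.
-/

open Complex MeasureTheory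

namespace Pool.Agent.Results.MP_dafbe7_nt.ProductsTwoFour

theorem result (F G H K : HYM.Sel) (hF : F.deg ≤ 2) (hG : G.deg ≤ 2) (hH : H.deg ≤ 2)
    (hK : ∀ n : ℕ, 1 ≤ n → K.f n = ∑ p ∈ n.divisorsAntidiagonal, G.f p.1 * H.f p.2)
    (ε : ℝ) (hε : 0 < ε) :
    ∃ C : ℝ, ∀ T : ℝ, 1 ≤ T →
      ‖∫ x in (1 : ℝ)..T, F.E x * K.E x‖ ≤ C * T ^ (3 / 2 + ε) :=
  HYM.mainB F G H K hF hG hH hK ε hε

end Pool.Agent.Results.MP_dafbe7_nt.ProductsTwoFour
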